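import Mathlib

/-!
# `a_n ≥ ⌊log n⌋ - 1` fails for `n = 99577`

`N n` is the number of triples `(a, q, p)` with `a ≥ 1`, `q ≥ 1`, `p ≥ 0` and
`n = 2 p q a + a q + q + p`, and `a_n = N n + 1`.  For `n = 99577` there are exactly eight
triples, so `a_n = 9`, while `⌊log n⌋ = 11`.
-/

namespace Pool.Agent.Results.MP_b2f6ce_nt.LogLowerBoundFails

/-- `N n` is the number of triples `(a, q, p)` of natural numbers with `a ≥ 1`, `q ≥ 1`
(and `p ≥ 0`) such that `n = 2 p q a + a q + q + p`. -/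
noncomputable def N (n : ℕ) : ℕ :=
  Nat.card {t : ℕ × ℕ × ℕ // 1 ≤ t.1 ∧ 1 ≤ t.2.1 ∧
    n = 2 * t.2.2 * t.2.1 * t.1 + t.1 * t.2.1 + t.2.1 + t.2.2}

/-- The sequence `a_n = N n + 1` of the problem. -/
noncomputable def aSeq (n : ℕ) : ℕ := N n + 1

/-- The pairs `(q, a)` of the solutions with `p ≥ 1`. -/
def exc (q a : ℕ) : Bool :=
  (Nat.beq q 6 && Nat.beq a 9) || (Nat.beq q 8 && Nat.beq a 655) ||
  (Nat.beq q 27 && Nat.beq a 1229) || (Nat.beq q 30 && Nat.beq a 17) ||
  (Nat.beq q 108 && Nat.beq a 307) || (Nat.beq q 314 && Nat.beq a 4) ||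
  (Nat.beq q 24894 && Nat.beq a 1)

/-- Check of one pair `(q, a)`. -/
def chk (q a : ℕ) : Bool :=
  cond (Nat.beq (Nat.mod (Nat.sub 99577 (Nat.mul q (Nat.succ a)))
    (Nat.succ (Nat.mul 2 (Nat.mul q a)))) 0) (exc q a) true

/-- Check of all pairs `(q, a)` with `1 ≤ a ≤ k`. -/
noncomputable def inner (q k : ℕ) : Bool :=
  @Nat.rec (fun _ => Bool) true (fun j ih => cond (chk q (Nat.succ j)) ih false) k

/-- Check of all pairs `(q, a)` with `1 ≤ q ≤ k`, `1 ≤ a` and `q a ≤ 33192`. -/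
noncomputable def outer (k : ℕ) : Bool :=
  @Nat.rec (fun _ => Bool) true
    (fun j ih => cond (inner (Nat.succ j) (Nat.div 33192 (Nat.succ j))) ih false) k

lemma inner_sound (q k : ℕ) (h : inner q k = true) : ∀ a, 1 ≤ a → a ≤ k → chk q a = true := by
  induction k with
  | zero => intro a h1 h2; omega
  | succ k ih =>
    intro a h1 h2
    have hs : inner q (k + 1) = cond (chk q (Nat.succ k)) (inner q k) false := rfl
    rw [hs] at h
    cases hc : chk q (Nat.succ k) with
    | false => rw [hc] at h; simp at h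
    | true =>
      rw [hc] at h
      simp only [cond_true] at h
      rcases Nat.lt_or_ge a (k + 1) with h3 | h3
      · exact ih h a h1 (by omega)
      · have : a = k.succ := by omega
        rw [this]; exact hc

lemma outer_sound (k : ℕ) (h : outer k = true) :
    ∀ q, 1 ≤ q → q ≤ k → inner q (33192 / q) = true := by
  induction k with
  | zero => intro a h1 h2; omega
  | succ k ih =>
    intro q h1 h2
    have hs : outer (k + 1)
      = cond (inner (Nat.succ k) (Nat.div 33192 (Nat.succ k))) (outer k) false := rfl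
    rw [hs] at h
    cases hc : inner (Nat.succ k) (Nat.div 33192 (Nat.succ k)) with
    | false => rw [hc] at h; simp at h
    | true =>
      rw [hc] at h
      simp only [cond_true] at h
      rcases Nat.lt_or_ge q (k + 1) with h3 | h3
      · exact ih h q h1 (by omega)
      · have : q = k.succ := by omega
        rw [this]; exact hc

lemma outer_true : outer 33192 = true := by decide +kernel

lemma exc_cases (q a : ℕ) (h : exc q a = true) :
    (q = 6 ∧ a = 9) ∨ (q = 8 ∧ a = 655) ∨ (q = 27 ∧ a = 1229) ∨ (q = 30 ∧ a = 17) ∨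
    (q = 108 ∧ a = 307) ∨ (q = 314 ∧ a = 4) ∨ (q = 24894 ∧ a = 1) := by
  unfold exc at h
  rw [Bool.or_eq_true, Bool.or_eq_true, Bool.or_eq_true, Bool.or_eq_true, Bool.or_eq_true,
    Bool.or_eq_true] at h
  have aux : ∀ x y : ℕ, (Nat.beq q x && Nat.beq a y) = true → q = x ∧ a = y := by
    intro x y hxy
    rw [Bool.and_eq_true] at hxy
    exact ⟨Nat.eq_of_beq_eq_true hxy.1, Nat.eq_of_beq_eq_true hxy.2⟩
  rcases h with (((((h | h) | h) | h) | h) | h) | h
  · exact Or.inl (aux _ _ h)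
  · exact Or.inr (Or.inl (aux _ _ h))
  · exact Or.inr (Or.inr (Or.inl (aux _ _ h)))
  · exact Or.inr (Or.inr (Or.inr (Or.inl (aux _ _ h))))
  · exact Or.inr (Or.inr (Or.inr (Or.inr (Or.inl (aux _ _ h)))))
  · exact Or.inr (Or.inr (Or.inr (Or.inr (Or.inr (Or.inl (aux _ _ h))))))
  · exact Or.inr (Or.inr (Or.inr (Or.inr (Or.inr (Or.inr (aux _ _ h))))))

/-- The eight solutions for `n = 99577`. -/
def sols : Finset (ℕ × ℕ × ℕ) :=
  {(99576, 1, 0), (9, 6, 913), (655, 8, 9), (1229, 27, 1), (17, 30, 97), (307, 108, 1),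
    (4, 314, 39), (1, 24894, 1)}

lemma prime_99577 : Nat.Prime 99577 := by norm_num

lemma mem_sols (a q p : ℕ) (ha : 1 ≤ a) (hq : 1 ≤ q)
    (h : 99577 = 2 * p * q * a + a * q + q + p) : (a, q, p) ∈ sols := by
  rcases Nat.eq_zero_or_pos p with hp | hp
  · subst hp
    have h1 : 99577 = q * (a + 1) := by rw [h]; ring
    have h2 : q ∣ 99577 := ⟨a + 1, h1⟩
    rcases (Nat.dvd_prime prime_99577).mp h2 with h3 | h3
    · subst h3
      have : a = 99576 := by omega
      subst this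
      decide
    · subst h3
      exfalso
      have : 99577 * 2 ≤ 99577 * (a + 1) := Nat.mul_le_mul_left _ (by omega)
      omega
  · have hqa : 1 ≤ q * a := Nat.mul_pos hq ha
    have h3 : 3 * (q * a) < 99577 := by
      have : 2 * (q * a) ≤ 2 * p * q * a := by
        calc 2 * (q * a) = 2 * 1 * (q * a) := by ring
          _ ≤ 2 * p * (q * a) := Nat.mul_le_mul_right _ (Nat.mul_le_mul_left _ hp)
          _ = 2 * p * q * a := by ring
      have h4 : a * q = q * a := Nat.mul_comm _ _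
      omega
    have hqa2 : q * a ≤ 33192 := by omega
    have hqle : q ≤ 33192 := by
      calc q = q * 1 := by ring
        _ ≤ q * a := Nat.mul_le_mul_left _ ha
        _ ≤ 33192 := hqa2
    have hale : a ≤ 33192 / q := by
      rw [Nat.le_div_iff_mul_le hq]
      rw [Nat.mul_comm]; exact hqa2
    have hc := inner_sound q _ (outer_sound _ outer_true q hq hqle) a ha hale
    have hdiv : Nat.beq (Nat.mod (Nat.sub 99577 (Nat.mul q (Nat.succ a)))
        (Nat.succ (Nat.mul 2 (Nat.mul q a)))) 0 = true := by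
      rw [Nat.beq_eq]
      change (99577 - q * (a + 1)) % (2 * (q * a) + 1) = 0
      have : 99577 - q * (a + 1) = (2 * (q * a) + 1) * p := by
        have h5 : 99577 = (2 * (q * a) + 1) * p + q * (a + 1) := by rw [h]; ring
        omega
      rw [this]
      exact Nat.mul_mod_right _ _
    unfold chk at hc
    rw [hdiv] at hc
    simp only [cond_true] at hc
    have h6 : 99577 = (2 * (q * a) + 1) * p + q * (a + 1) := by rw [h]; ring
    rcases exc_cases q a hc with ⟨rfl, rfl⟩ | ⟨rfl, rfl⟩ | ⟨rfl, rfl⟩ | ⟨rfl, rfl⟩ | ⟨rfl, rfl⟩ |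
      ⟨rfl, rfl⟩ | ⟨rfl, rfl⟩
    · have : p = 913 := by omega
      subst this; decide
    · have : p = 9 := by omega
      subst this; decide
    · have : p = 1 := by omega
      subst this; decide
    · have : p = 97 := by omega
      subst this; decide
    · have : p = 1 := by omega
      subst this; decide
    · have : p = 39 := by omega
      subst this; decide
    · have : p = 1 := by omega
      subst this; decide

lemma N_eq : N 99577 = 8 := by
  unfold N
  have hset : {t : ℕ × ℕ × ℕ | 1 ≤ t.1 ∧ 1 ≤ t.2.1 ∧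
      99577 = 2 * t.2.2 * t.2.1 * t.1 + t.1 * t.2.1 + t.2.1 + t.2.2} = (sols : Set _) := by
    ext ⟨a, q, p⟩
    simp only [Set.mem_ofPred_eq, Finset.mem_coe]
    constructor
    · rintro ⟨h1, h2, h3⟩
      exact mem_sols a q p h1 h2 h3
    · intro h
      simp only [sols, Finset.mem_insert, Finset.mem_singleton, Prod.mk.injEq] at h
      rcases h with ⟨rfl, rfl, rfl⟩ | ⟨rfl, rfl, rfl⟩ | ⟨rfl, rfl, rfl⟩ | ⟨rfl, rfl, rfl⟩ |
        ⟨rfl, rfl, rfl⟩ | ⟨rfl, rfl, rfl⟩ | ⟨rfl, rfl, rfl⟩ | ⟨rfl, rfl, rfl⟩ <;>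
        norm_num
  have : Nat.card {t : ℕ × ℕ × ℕ | 1 ≤ t.1 ∧ 1 ≤ t.2.1 ∧
      99577 = 2 * t.2.2 * t.2.1 * t.1 + t.1 * t.2.1 + t.2.1 + t.2.2} = 8 := by
    rw [hset, Nat.card_coe_set_eq, Set.ncard_coe_finset]
    decide
  exact this

/-- **Failure of the conjectured lower bound.**  For `n = 99577` one has `a_n = 9` and
`⌊log n⌋ = 11`; hence `a_n = ⌊log n⌋ - 2`, and the inequality `a_n ≥ ⌊log n⌋ - 1` fails. -/
theorem result : aSeq 99577 = 9 ∧ ⌊Real.log (99577 : ℝ)⌋ = 11 ∧
    ¬ ∀ n : ℕ, 1 ≤ n → ⌊Real.log (n : ℝ)⌋ - 1 ≤ (aSeq n : ℤ) := by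
  have h1 : aSeq 99577 = 9 := by unfold aSeq; rw [N_eq]
  have h2 : ⌊Real.log (99577 : ℝ)⌋ = 11 := by
    rw [Int.floor_eq_iff]
    push_cast
    constructor
    · rw [Real.le_log_iff_exp_le (by norm_num)]
      have h := Real.exp_one_lt_d9
      calc Real.exp 11 = (Real.exp 1) ^ 11 := by rw [← Real.exp_nat_mul]; norm_num
        _ ≤ (2.7182818286 : ℝ) ^ 11 := by
            apply pow_le_pow_left₀ (Real.exp_pos 1).le h.le
        _ ≤ 99577 := by norm_num
    · rw [Real.log_lt_iff_lt_exp (by norm_num)]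
      have h := Real.exp_one_gt_d9
      calc (99577 : ℝ) < (2.7182818283 : ℝ) ^ 12 := by norm_num
        _ ≤ (Real.exp 1) ^ 12 := by
            apply pow_le_pow_left₀ (by norm_num) h.le
        _ = Real.exp (11 + 1) := by rw [← Real.exp_nat_mul]; norm_num
  refine ⟨h1, h2, ?_⟩
  intro h
  have h3 := h 99577 (by norm_num)
  rw [h1] at h3
  push_cast at h3
  rw [h2] at h3
  norm_num at h3

end Pool.Agent.Results.MP_b2f6ce_nt.LogLowerBoundFails
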